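import Pool.Agent.Helper87.VM.Lib2

set_option autoImplicit false

namespace Pool.Agent.Helper87.VM

open MvPolynomial Pool.Agent.Helper48.VMRT

theorem prod_left {κ₁ κ₂ : Type} (P : MvPolynomial (κ₁ ⊕ κ₂) ℂ) (y : κ₂ → ℂ) :
    ∃ p : MvPolynomial κ₁ ℂ, ∀ x, eval x p = eval (Sum.elim x y) P := by
  refine ⟨aeval (Sum.elim (fun i => X i) (fun j => C (y j))) P, fun x => ?_⟩
  rw [eval_aeval]
  congr 2
  funext i
  cases i <;> simp [ev]

theorem prod_right {κ₁ κ₂ : Type} (P : MvPolynomial (κ₁ ⊕ κ₂) ℂ) (x : κ₁ → ℂ) :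
    ∃ p : MvPolynomial κ₂ ℂ, ∀ y, eval y p = eval (Sum.elim x y) P := by
  refine ⟨aeval (Sum.elim (fun i => C (x i)) (fun j => X j)) P, fun y => ?_⟩
  rw [eval_aeval]
  congr 2
  funext i
  cases i <;> simp [ev]

theorem prod_nonempty {κ : Type} {S : Set (κ → ℂ)} (h : (vanishingIdeal ℂ S).IsPrime) :
    S.Nonempty := by
  by_contra hne
  rw [Set.not_nonempty_iff_eq_empty] at hne
  apply h.ne_top
  rw [Ideal.eq_top_iff_one, mem_vI]
  intro x hx
  rw [hne] at hx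
  exact absurd hx (Set.notMem_empty x)

theorem st_PROD : ST_PROD := by
  intro κ₁ κ₂ _ _ S₁ S₂ h₁ h₂
  obtain ⟨a, ha⟩ := prod_nonempty h₁
  obtain ⟨b, hb⟩ := prod_nonempty h₂
  have memI : ∀ P : MvPolynomial (κ₁ ⊕ κ₂) ℂ,
      P ∈ vanishingIdeal ℂ {z : κ₁ ⊕ κ₂ → ℂ | (fun i => z (Sum.inl i)) ∈ S₁ ∧
        (fun j => z (Sum.inr j)) ∈ S₂} ↔ ∀ x ∈ S₁, ∀ y ∈ S₂, eval (Sum.elim x y) P = 0 := by
    intro P
    rw [mem_vI]
    constructor
    · intro h x hx y hy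
      exact h _ ⟨hx, hy⟩
    · intro h z hz
      have := h _ hz.1 _ hz.2
      have e : (Sum.elim (fun i => z (Sum.inl i)) (fun j => z (Sum.inr j)) : κ₁ ⊕ κ₂ → ℂ) = z := by
        funext i
        cases i <;> rfl
      rwa [e] at this
  refine Ideal.isPrime_iff.2 ⟨?_, ?_⟩
  · intro htop
    have h1 : (1 : MvPolynomial (κ₁ ⊕ κ₂) ℂ) ∈ vanishingIdeal ℂ
        {z : κ₁ ⊕ κ₂ → ℂ | (fun i => z (Sum.inl i)) ∈ S₁ ∧ (fun j => z (Sum.inr j)) ∈ S₂} := by
      rw [htop]; trivial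
    have := (memI 1).1 h1 a ha b hb
    rw [map_one] at this
    exact one_ne_zero this
  · intro P Q hPQ
    rw [memI] at hPQ
    by_contra hcon
    rw [not_or, memI, memI] at hcon
    obtain ⟨hP, hQ⟩ := hcon
    push Not at hP hQ
    obtain ⟨x1, hx1, y1, hy1, hP1⟩ := hP
    obtain ⟨x2, hx2, y2, hy2, hQ2⟩ := hQ
    obtain ⟨p, hp⟩ := prod_right P x1
    obtain ⟨q, hq⟩ := prod_right Q x2
    have key : p * q ∈ vanishingIdeal ℂ S₂ := by
      rw [mem_vI]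
      intro y hy
      obtain ⟨p', hp'⟩ := prod_left P y
      obtain ⟨q', hq'⟩ := prod_left Q y
      have h3 : p' * q' ∈ vanishingIdeal ℂ S₁ := by
        rw [mem_vI]
        intro x hx
        rw [map_mul, hp', hq', ← map_mul]
        exact hPQ x hx y hy
      rw [map_mul, hp, hq]
      rcases h₁.mem_or_mem h3 with h | h
      · rw [← hp', mem_vI.1 h x1 hx1, zero_mul]
      · rw [← hq', mem_vI.1 h x2 hx2, mul_zero]
    rcases h₂.mem_or_mem key with h | h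
    · apply hP1
      rw [← hp]
      exact mem_vI.1 h y1 hy1
    · apply hQ2
      rw [← hq]
      exact mem_vI.1 h y2 hy2

end Pool.Agent.Helper87.VM
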