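import Pool.Agent.Helper87.VM.Lib2

set_option autoImplicit false

namespace Pool.Agent.Helper87.VM

open MvPolynomial Pool.Agent.Helper48.VMRT

theorem st_YPM (h1 : ST_YCL) (h2 : ST_YIR) (h3 : ST_YUP) (h4 : ST_YLO) : ST_YPM := by
  intro G ν _ _ w Z ρ a F ρν hF
  refine ⟨h1 _ _ a F hF.hom, ?_, h2 G ν w Z ρ a F ρν hF, ?_, ?_⟩
  · rintro c y ⟨x, η, rfl, hs⟩
    exact ⟨x, c • η, (seg_smul_right c x η).symm, hs.smul_right c⟩
  · refine ⟨seg (ov 1 0) (ev F (ov 1 0)), ⟨_, _, rfl, syz_ev F _⟩, ?_⟩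
    apply seg_ne_zero
    · intro h
      have := congrFun h none
      simp at this
    · intro h
      have h5 := (hF.zero (ov 1 0)).1 (fun j => congrFun h j)
      simp at h5
  · intro y hy hy0
    exact le_antisymm (h3 G ν w Z ρ a F ρν hF y hy hy0) (h4 G ν w Z ρ a F ρν hF y hy)

end Pool.Agent.Helper87.VM
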